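import Pool.Agent.R598.CR.Main

set_option autoImplicit false

/-! # Canonical Ramsey finiteness is not Ramsey finiteness for pairs, for any number of colours

There is a countable transitive set `M` which is a model of ZF and contains a set `X` for which, in `M`, the
canonical Ramsey property `CRT(X)` fails and the Ramsey property `RT²_n(X)` for pairs holds for all `n`
simultaneously. So the inclusion of the `R_n`-finite sets in the CRT-finite sets can be strict for every
`n ≥ 2`, even for all `n` at once and with the same set.

The model is a symmetric one and its construction is the library file `Pool.Agent.R598.CR.Main`. -/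

namespace Pool.Agent.Results.MP_5f5b92_lc.AllColours

open Pool.Agent.W868 Pool.Agent.R598.CR

/-- There are a countable transitive model `M` of ZF and a set `X` in `M` such that, in `M`, `CRT(X)` fails and
`RT²_n(X)` holds for every natural number `n`. -/
theorem result : ∃ M : Set ZFSet.{0}, M.Countable ∧ IsZF M ∧ ∃ X ∈ M, ¬ CRT M X ∧
    ∀ n : ℕ, RT2 M X n :=
  main

end Pool.Agent.Results.MP_5f5b92_lc.AllColours
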